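import Pool.Agent.Q32.LR2.Stm

/-!
# Project LR2, job FIX: finite groups acting on trees
-/

set_option autoImplicit false

namespace Q190.LR2

open Q32.LR2 Pool.Agent.H97R3.VR

theorem t_FIX : S_FIX := by
  classical
  intro C E _ _ _ T hT hE
  have hmed := hT.med
  have hconn := hmed.conn
  obtain ⟨o⟩ := hconn.nonempty
  have : Fintype E := Fintype.ofFinite E
  have hd : ∀ (g : E) (x y : C), T.dist (g • x) (g • y) = T.dist x y :=
    fun g x y => dist_smul hconn hE g x y
  let ecc : C → ℕ := fun x => (Finset.univ : Finset E).sup (fun g => T.dist x (g • o))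
  have hle : ∀ (x : C) (g : E), T.dist x (g • o) ≤ ecc x :=
    fun x g => Finset.le_sup (f := fun g : E => T.dist x (g • o)) (Finset.mem_univ g)
  have hecc : ∀ (h : E) (x : C), ecc (h • x) = ecc x := by
    have key : ∀ (h : E) (x : C), ecc (h • x) ≤ ecc x := by
      intro h x
      apply Finset.sup_le
      intro g _
      have h1 : T.dist (h • x) (g • o) = T.dist x ((h⁻¹ * g) • o) := by
        rw [← hd h x, smul_smul, mul_inv_cancel_left]
      rw [h1]
      exact hle x _
    intro h x
    refine le_antisymm (key h x) ?_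
    have h2 := key h⁻¹ (h • x)
    rwa [inv_smul_smul] at h2
  obtain ⟨x, hx⟩ : ∃ x, ∀ y, ecc x ≤ ecc y := by
    obtain ⟨x, hx⟩ := WellFounded.has_min (measure ecc).wf Set.univ ⟨o, trivial⟩
    exact ⟨x, fun y => not_lt.1 (hx.2 y trivial)⟩
  have hmin : ∀ y, ecc y = ecc x → y = x ∨ T.Adj x y := by
    intro y hy
    by_contra hcon
    rw [not_or] at hcon
    have h0 : T.dist x y ≠ 0 := fun h => hcon.1 (hconn.dist_eq_zero_iff.1 h).symm
    have h1 : T.dist x y ≠ 1 := fun h => hcon.2 (SimpleGraph.dist_eq_one_iff_adj.1 h)
    obtain ⟨n, hn⟩ : ∃ n, T.dist x y = n + 1 := ⟨T.dist x y - 1, by omega⟩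
    obtain ⟨z, hz1, hz2⟩ := exists_pred hconn hn
    have hzy := adj_one hz1
    have hb : Pool.Agent.H97R3.VR.Btw T x y z := by
      unfold Pool.Agent.H97R3.VR.Btw
      rw [hz2, hzy, hn]
    have hlt : ∀ g : E, T.dist z (g • o) < ecc x := by
      intro g
      rcases hT.tri x y z (g • o) hb with h | h
      · unfold Pool.Agent.H97R3.VR.Btw at h
        have h3 := hle x g
        omega
      · unfold Pool.Agent.H97R3.VR.Btw at h
        have h3 := hle y g
        have h4 : T.dist (g • o) z = T.dist z (g • o) := SimpleGraph.dist_comm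
        have h5 : T.dist (g • o) y = T.dist y (g • o) := SimpleGraph.dist_comm
        omega
    have hpos : 0 < ecc x := lt_of_le_of_lt (Nat.zero_le _) (hlt 1)
    have h6 : ecc z < ecc x := (Finset.sup_lt_iff hpos).2 (fun g _ => hlt g)
    have h7 := hx z
    omega
  by_cases hone : ∀ y, ecc y = ecc x → y = x
  · refine ⟨x, x, Or.inl rfl, fun g => Or.inl ?_⟩
    have h1 := hone (g • x) (hecc g x)
    exact ⟨h1, h1⟩
  · push Not at hone
    obtain ⟨y, hy1, hy2⟩ := hone
    have hxy : T.Adj x y := (hmin y hy1).resolve_left hy2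
    have hall : ∀ z, ecc z = ecc x → z = x ∨ z = y := by
      intro z hz
      by_contra hcon
      rw [not_or] at hcon
      have hxz : T.Adj x z := (hmin z hz).resolve_left hcon.1
      -- `y` and `z` are adjacent too
      have hyz : z ≠ y := hcon.2
      have h2 := dist_two hmed hxy hxz (Ne.symm hyz)
      -- a vertex between `y` and `z`: `x` itself has smaller eccentricity or contradiction
      have hb : Pool.Agent.H97R3.VR.Btw T y z x := by
        unfold Pool.Agent.H97R3.VR.Btw
        rw [h2, adj_one hxy.symm, adj_one hxz]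
      have hlt : ∀ g : E, T.dist x (g • o) < ecc x := by
        intro g
        rcases hT.tri y z x (g • o) hb with h | h
        · unfold Pool.Agent.H97R3.VR.Btw at h
          have h3 := hle y g
          have h4 := adj_one hxy.symm
          omega
        · unfold Pool.Agent.H97R3.VR.Btw at h
          have h3 := hle z g
          have h4 : T.dist (g • o) x = T.dist x (g • o) := SimpleGraph.dist_comm
          have h5 : T.dist (g • o) z = T.dist z (g • o) := SimpleGraph.dist_comm
          have h6 := adj_one hxz
          omega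
      have hpos : 0 < ecc x := lt_of_le_of_lt (Nat.zero_le _) (hlt 1)
      have h6 : ecc x < ecc x := by
        change (Finset.univ : Finset E).sup (fun g => T.dist x (g • o)) < ecc x
        exact (Finset.sup_lt_iff hpos).2 (fun g _ => hlt g)
      omega
    refine ⟨x, y, Or.inr hxy, fun g => ?_⟩
    have h1 := hall (g • x) (hecc g x)
    have h2 := hall (g • y) ((hecc g y).trans hy1)
    have h3 : g • x ≠ g • y := fun h => hxy.ne (smul_left_cancel g h)
    rcases h1 with h1 | h1
    · rcases h2 with h2 | h2
      · exact absurd (h1.trans h2.symm) h3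
      · exact Or.inl ⟨h1, h2⟩
    · rcases h2 with h2 | h2
      · exact Or.inr ⟨h1, h2⟩
      · exact absurd (h1.trans h2.symm) h3

end Q190.LR2
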