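import Pool.Agent.Q32.LR2.Stm

/-!
# Project LR2, job NB: equivariant choice
-/

set_option autoImplicit false

namespace Q190.LR2

open Q32.LR2

theorem t_NB : S_NB := by
  classical
  intro Γ Q M C _ _ _ _ π s f L A hf hA hn
  have hf1 : f 1 = 1 := by
    have h := hf 1 L.one_mem 1 L.one_mem
    rw [mul_one] at h
    exact (mul_eq_left.1 h.symm)
  -- representatives
  let rep : C → C := fun y => (Quotient.mk (MulAction.orbitRel L C) y).out
  have hrep : ∀ y : C, ∃ a : Γ, a ∈ L ∧ a • rep y = y := by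
    intro y
    have h1 : (MulAction.orbitRel L C).r (rep y) y := Quotient.exact (Quotient.out_eq _)
    have h2 : (MulAction.orbitRel L C).r y (rep y) := (MulAction.orbitRel L C).symm h1
    rw [MulAction.orbitRel_apply] at h2
    obtain ⟨a, ha⟩ := h2
    exact ⟨a, a.2, ha⟩
  have hrep2 : ∀ (l : Γ), l ∈ L → ∀ y : C, rep (l • y) = rep y := by
    intro l hl y
    have h1 : (Quotient.mk (MulAction.orbitRel L C) (l • y)) = Quotient.mk _ y := by
      apply Quotient.sound
      change (MulAction.orbitRel L C).r (l • y) y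
      rw [MulAction.orbitRel_apply]
      exact ⟨⟨l, hl⟩, rfl⟩
    change (Quotient.mk (MulAction.orbitRel L C) (l • y)).out = _
    rw [h1]
  choose a haL ha using hrep
  let n : C → M := fun y => if h : ∃ n : M, ∀ g ∈ L, g • y = y → f g = n⁻¹ * s (π g) * n then
    h.choose else 1
  have hn2 : ∀ y ∈ A, ∀ g ∈ L, g • y = y → f g = (n y)⁻¹ * s (π g) * n y := by
    intro y hy
    have h := hn y hy
    have h2 : n y = h.choose := dif_pos h
    rw [h2]
    exact h.choose_spec
  refine ⟨fun y => s (π (a y)) * n (rep y) * (f (a y))⁻¹, ?_⟩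
  intro l hl y hy
  have hrepA : rep y ∈ A := by
    have h1 : rep y = (a y)⁻¹ • y := eq_inv_smul_iff.2 (ha y)
    rw [h1]
    exact hA _ (L.inv_mem (haL y)) y hy
  have hb := ha (l • y)
  rw [hrep2 l hl y] at hb
  have hbL := haL (l • y)
  set b := a (l • y) with hbdef
  set g := b⁻¹ * (l * a y) with hg
  have hgL : g ∈ L := L.mul_mem (L.inv_mem hbL) (L.mul_mem hl (haL y))
  have hgfix : g • rep y = rep y := by
    rw [hg, mul_smul, mul_smul, ha y, ← hb, inv_smul_smul]
  have h3 := hn2 (rep y) hrepA g hgL hgfix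
  have hlg : l * a y = b * g := by rw [hg, mul_inv_cancel_left]
  have h4 : s (π l) * s (π (a y)) = s (π b) * s (π g) := by
    rw [← map_mul, ← map_mul, ← map_mul, ← map_mul, hlg]
  have h5 : f l * f (a y) = f b * f g := by
    rw [← hf l hl (a y) (haL y), hlg, hf b hbL g hgL]
  have h6 : (f (a y))⁻¹ * (f l)⁻¹ = (f g)⁻¹ * (f b)⁻¹ := by
    rw [← mul_inv_rev, ← mul_inv_rev, h5]
  change s (π b) * n (rep (l • y)) * (f b)⁻¹ = _
  rw [hrep2 l hl y]
  calc s (π b) * n (rep y) * (f b)⁻¹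
      = s (π b) * s (π g) * n (rep y) * (((n (rep y))⁻¹ * s (π g) * n (rep y))⁻¹ * (f b)⁻¹) := by group
    _ = s (π b) * s (π g) * n (rep y) * ((f g)⁻¹ * (f b)⁻¹) := by rw [← h3]
    _ = s (π l) * s (π (a y)) * n (rep y) * ((f (a y))⁻¹ * (f l)⁻¹) := by rw [h4, h6]
    _ = s (π l) * (s (π (a y)) * n (rep y) * (f (a y))⁻¹) * (f l)⁻¹ := by group

end Q190.LR2
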